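import Pool.Agent.Helper61.EC.WecN
import Pool.Agent.Helper61.GL.Cal

/-! Robust lower bounds for the rates of prefixes hold along most paths. -/

namespace Pool.Agent.Helper61.EC

open Finset Filter Topology Pool.Agent.Helper69.RK Pool.Agent.Helper31.EC Pool.Agent.Helper92.W Pool.Agent.Helper46.WF

noncomputable section

open Sp

/-- surprisal along an event: upper bound for the entropy on the event -/
theorem srp_event_le {Ω α γ : Type} [Fintype Ω] (μ : Ω → ℝ) (h0 : ∀ ω, 0 ≤ μ ω) (f : Ω → α) (g : Ω → γ)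
    (E : Ω → Prop) (t : ℝ) (ht : ∀ ω, μ ω ≠ 0 → E ω → srp μ f g ω ≤ t) :
    CH (res μ E) f g ≤ t * mass (res μ E) := by
  classical
  have hr : ∀ ω, 0 ≤ res μ E ω := fun ω => ((st_E4 st_E1 st_E3).2.2 _ _ E h0).2.2 ω
  have hE : ∀ ω, res μ E ω ≠ 0 → E ω ∧ μ ω ≠ 0 := by
    intro ω h
    by_cases h1 : E ω
    · rw [res_pos _ _ _ h1] at h
      exact ⟨h1, h⟩
    · exact absurd (res_neg _ _ _ h1) h
  set r : γ → α → ℝ := fun b a => (∑ ω, if (f ω, g ω) = (a, b) then μ ω else 0) / (∑ ω, if g ω = b then μ ω else 0)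
    with hrd
  have hrv : ∀ ω, r (g ω) (f ω) = pr μ (fun ω' => (f ω', g ω')) ω / pr μ g ω := by
    intro ω
    rw [e1_pr_eq, e1_pr_eq, hrd]
    beta_reduce
    congr 1 <;> exact Finset.sum_congr rfl fun ω' _ => by congr 1
  have hden : ∀ b, 0 ≤ ∑ ω, if g ω = b then μ ω else 0 := by
    intro b
    apply Finset.sum_nonneg
    intro ω _
    split_ifs
    · exact h0 ω
    · exact le_rfl
  have hnum : ∀ a b, 0 ≤ ∑ ω, if (f ω, g ω) = (a, b) then μ ω else 0 := by
    intro a b
    apply Finset.sum_nonneg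
    intro ω _
    split_ifs
    · exact h0 ω
    · exact le_rfl
  have h1 := Pool.Agent.Helper61.GL.ch_gibbs (res μ E) hr f g r (by
      intro ω h
      rw [hrv]
      exact div_pos (e1_pr_pos μ _ h0 ω (hE ω h).2) (e1_pr_pos μ _ h0 ω (hE ω h).2))
    (fun b a => div_nonneg (hnum a b) (hden b)) (by
      intro b s
      rw [hrd]
      beta_reduce
      rw [← Finset.sum_div]
      apply div_le_one_of_le₀ _ (hden b)
      rw [Finset.sum_comm]
      apply Finset.sum_le_sum
      intro ω _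
      by_cases hb : g ω = b
      · rw [if_pos hb]
        calc ∑ a ∈ s, (if (f ω, g ω) = (a, b) then μ ω else 0) = ∑ a ∈ s, (if f ω = a then μ ω else 0) := by
              apply Finset.sum_congr rfl
              intro a _
              congr 1
              rw [Prod.mk.injEq]
              simp [hb]
          _ ≤ μ ω := by
              rw [Finset.sum_ite_eq]
              split_ifs
              · exact le_rfl
              · exact h0 ω
      · rw [if_neg hb]
        apply le_of_eq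
        apply Finset.sum_eq_zero
        intro a _
        rw [if_neg]
        rw [Prod.mk.injEq]
        exact fun h => hb h.2)
  refine h1.trans ?_
  rw [← Finset.sum_neg_distrib]
  unfold mass
  rw [Finset.mul_sum]
  apply Finset.sum_le_sum
  intro ω _
  by_cases h : res μ E ω = 0
  · rw [h]; simp
  · obtain ⟨h2, h3⟩ := hE ω h
    have h4 := ht ω h3 h2
    unfold srp at h4
    rw [hrv, Real.logb_div (e1_pr_pos μ _ h0 ω h3).ne' (e1_pr_pos μ _ h0 ω h3).ne']
    have h5 := mul_le_mul_of_nonneg_left h4 (hr ω)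
    linarith

/-- surprisals of longer prefixes are larger -/
theorem srp_pre {Ω γ : Type} [Fintype Ω] (μ : Ω → ℝ) (h0 : ∀ ω, 0 ≤ μ ω) (z : Ω → ℝ) (F : Ω → γ) {a b : ℕ}
    (h1 : a ≤ b) (ω : Ω) (hω : μ ω ≠ 0) :
    srp μ (fun ω' => fl a (z ω')) F ω ≤ srp μ (fun ω' => fl b (z ω')) F ω := by
  unfold srp
  have p2 := e1_pr_pos μ (fun ω' => (fl b (z ω'), F ω')) h0 ω hω
  have q2 : pr μ (fun ω' => (fl b (z ω'), F ω')) ω ≤ pr μ (fun ω' => (fl a (z ω'), F ω')) ω := by
    apply e1_pr_mono _ _ _ h0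
    intro ω' _ h
    rw [Prod.mk.injEq] at h ⊢
    exact ⟨fl_eq_of h1 h.1, h.2⟩
  have r2 := Real.logb_le_logb_of_le (by norm_num : (1 : ℝ) < 2) p2 q2
  linarith

/-- paths with a prefix of small surprisal -/
def Low (S : Sp) {α : ℕ → Type} (Bc : ∀ k, (S.F k).Ω → α k) (g : ∀ k, (S.F k).Ω → ℝ) (c η : ℝ) (k : ℕ)
    (ω : (S.F k).Ω) : Prop :=
  ∃ r : ℕ, r ≤ lev S 1 k ∧ srp (S.F k).μ (fun ω' => fl r (g k ω')) (fun ω' => (Quotient.mk (S.F k).Z ω', Bc k ω')) ω <
    c * r - η * (lev S 1 k)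

/-- robust lower bounds for the rates of prefixes hold along most paths -/
theorem lo_of (S : Sp) {α : ℕ → Type} (Bc : ∀ k, (S.F k).Ω → α k) (hB : Bdd Bc) (g : ∀ k, (S.F k).Ω → ℝ)
    (hg : ∀ r, Bdd (fun k ω => fl (lev S r k) (g k ω))) (c η : ℝ) (hc0 : 0 ≤ c)
    (hc1 : c ≤ 1) (hη : 0 < η)
    (hun : ∀ (E : ∀ k, (S.F k).Ω → Prop) (hE : 0 < ul (S.pr E)) (r : ℝ), 0 ≤ r → r ≤ 1 →
      c * r ≤ h (restL E hE (io (fun k ω => fl (lev S r k) (g k ω)))) (restL E hE (io Bc))) :
    ∀ᶠ k in UF, Pw (S.F k).μ (Low S Bc g c η k) ≤ η := by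
  classical
  by_contra hcon
  have h1 := UF_not hcon
  obtain ⟨M, hM8⟩ := exists_nat_ge (8 / η)
  have hM0 : (0 : ℝ) < M := lt_of_lt_of_le (by positivity) hM8
  have hM1 : 1 ≤ M := by exact_mod_cast hM0
  have hM2 : 2 / (M : ℝ) ≤ η / 4 := by
    rw [div_le_iff₀ hM0]
    rw [div_le_iff₀ hη] at hM8
    linarith
  set ρ : ℕ → ℝ := fun i => i / M with hρ
  set E : Fin (M + 1) → ∀ k, (S.F k).Ω → Prop := fun p k ω =>
    srp (S.F k).μ (fun ω' => fl (lev S (ρ p) k) (g k ω'))
        (fun ω' => (Quotient.mk (S.F k).Z ω', Bc k ω')) ω ≤ (c * ρ p - η / 4) * (S.F k).n with hE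
  -- (A)
  have hA : ∀ᶠ k in UF, η < ∑ p, S.pr (E p) k := by
    filter_upwards [h1, S.lim.eventually_ge_atTop (max 2 (8 / η))] with k hk hn2'
    have hn := (S.F k).pos
    have hn2 : 2 ≤ (S.F k).n := (le_max_left _ _).trans hn2'
    have hn8 : 8 / η ≤ (S.F k).n := (le_max_right _ _).trans hn2'
    rw [not_le] at hk
    refine lt_of_lt_of_le hk ?_
    have hNle : (lev S 1 k : ℝ) ≤ (S.F k).n := by
      have := lev_le S zero_le_one k
      rwa [one_mul] at this
    have hNlt : (S.F k).n < lev S 1 k + 1 := by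
      have := lt_lev S 1 k
      rwa [one_mul] at this
    rw [Pw_eq]
    have e1 : ∑ p, S.pr (E p) k = ∑ ω, ∑ p, res (S.F k).μ (E p k) ω := by
      rw [Finset.sum_comm]
      rfl
    rw [e1]
    unfold mass
    apply Finset.sum_le_sum
    intro ω _
    have hnn : ∀ p, 0 ≤ res (S.F k).μ (E p k) ω := fun p => (S.F k).res_nonneg (E p k) ω
    by_cases hω : (S.F k).μ ω = 0
    · have : res (S.F k).μ (Low S Bc g c η k) ω ≤ 0 := by
        unfold res
        split_ifs
        · exact hω.le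
        · exact le_rfl
      exact this.trans (Finset.sum_nonneg fun p _ => hnn p)
    · by_cases hbad : Low S Bc g c η k ω
      · rw [res_pos _ _ _ hbad]
        obtain ⟨r, hr, hs⟩ := hbad
        -- grid point below r
        set x : ℝ := (r : ℝ) / (S.F k).n * M with hx
        have hx0 : 0 ≤ x := by positivity
        have hrn : (r : ℝ) ≤ (S.F k).n := le_trans (by exact_mod_cast hr) hNle
        have hxM : x ≤ M := by
          have := (div_le_one hn).mpr hrn
          calc x ≤ 1 * M := mul_le_mul_of_nonneg_right this hM0.le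
            _ = M := one_mul _
        have hi1 : ⌊x⌋₊ ≤ M := by
          have := Nat.floor_le hx0
          have h3 : ((⌊x⌋₊ : ℕ) : ℝ) ≤ M := this.trans hxM
          exact_mod_cast h3
        have hi2 : ρ ⌊x⌋₊ * (S.F k).n ≤ r := by
          have e2 := Nat.floor_le hx0
          have e3 : ((⌊x⌋₊ : ℕ) : ℝ) / M * (S.F k).n ≤ x / M * (S.F k).n :=
            mul_le_mul_of_nonneg_right (div_le_div_of_nonneg_right e2 hM0.le) hn.le
          refine e3.trans (le_of_eq ?_)
          rw [hx]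
          field_simp
        have hi3 : (r : ℝ) ≤ (ρ ⌊x⌋₊ + 1 / M) * (S.F k).n := by
          have e2 := (Nat.lt_floor_add_one x).le
          have e3 : x / M * (S.F k).n ≤ (((⌊x⌋₊ : ℕ) : ℝ) + 1) / M * (S.F k).n :=
            mul_le_mul_of_nonneg_right (div_le_div_of_nonneg_right e2 hM0.le) hn.le
          have e4 : x / M * (S.F k).n = r := by
            rw [hx]
            field_simp
          rw [e4, add_div] at e3
          exact e3
        have hlev : lev S (ρ ⌊x⌋₊) k ≤ r := by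
          have e2 : ((lev S (ρ ⌊x⌋₊) k : ℕ) : ℝ) ≤ ρ ⌊x⌋₊ * (S.F k).n := lev_le S (by positivity) k
          have e3 : ((lev S (ρ ⌊x⌋₊) k : ℕ) : ℝ) ≤ r := e2.trans hi2
          exact_mod_cast e3
        have hEp : E ⟨⌊x⌋₊, by omega⟩ k ω := by
          show srp (S.F k).μ (fun ω' => fl (lev S (ρ ⌊x⌋₊) k) (g k ω'))
            (fun ω' => (Quotient.mk (S.F k).Z ω', Bc k ω')) ω ≤ (c * ρ ⌊x⌋₊ - η / 4) * (S.F k).n
          have g1 := srp_pre (S.F k).μ (S.F k).nn (g k) (fun ω' => (Quotient.mk (S.F k).Z ω', Bc k ω')) hlev ω hω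
          refine g1.trans (hs.le.trans ?_)
          have g2 : c * (r : ℝ) ≤ c * ((ρ ⌊x⌋₊ + 1 / M) * (S.F k).n) := mul_le_mul_of_nonneg_left hi3 hc0
          have g3 : c * (1 / (M : ℝ)) ≤ 1 * (1 / M) := mul_le_mul_of_nonneg_right hc1 (by positivity)
          have g4 : 1 / (M : ℝ) ≤ η / 4 := by
            refine le_trans ?_ hM2
            apply div_le_div_of_nonneg_right _ hM0.le
            norm_num
          have g5 : c * (1 / (M : ℝ)) * (S.F k).n ≤ η / 4 * (S.F k).n :=
            mul_le_mul_of_nonneg_right (by linarith) hn.le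
          have g6 : η * ((S.F k).n / 2) ≤ η * (lev S 1 k) := mul_le_mul_of_nonneg_left (by linarith) hη.le
          nlinarith
        have g8 := Finset.single_le_sum (f := fun p => res (S.F k).μ (E p k) ω) (fun p _ => hnn p)
          (Finset.mem_univ (⟨⌊x⌋₊, by omega⟩ : Fin (M + 1)))
        refine le_trans (le_of_eq ?_) g8
        show _ = res (S.F k).μ (E ⟨⌊x⌋₊, by omega⟩ k) ω
        rw [res_pos _ _ _ hEp]
      · rw [res_neg _ _ _ hbad]
        exact Finset.sum_nonneg fun p _ => hnn p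
  -- (B)
  have hB1 : η ≤ ∑ p, ul (S.pr (E p)) := by
    have t : Tendsto (fun k => ∑ p, S.pr (E p) k) UF (𝓝 (∑ p, ul (S.pr (E p)))) :=
      tendsto_finsetSum _ fun p _ => ul_tendsto (UB_pr (E p))
    exact ge_of_tendsto t (hA.mono fun k hk => hk.le)
  obtain ⟨p, hp⟩ : ∃ p, 0 < ul (S.pr (E p)) := by
    by_contra hc
    push Not at hc
    have : ∑ p, ul (S.pr (E p)) ≤ 0 := Finset.sum_nonpos fun p _ => hc p
    linarith
  -- (C)
  have hpM : ((p : ℕ) : ℝ) ≤ M := by
    have := p.2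
    have h2 : (p : ℕ) ≤ M := by omega
    exact_mod_cast h2
  have hρ0 : 0 ≤ ρ p := by positivity
  have hρ1 : ρ p ≤ 1 := (div_le_one hM0).mpr hpM
  have h2 := hun (E p) hp (ρ p) hρ0 hρ1
  set zb : ∀ k, (S.F k).Ω → ℤ := fun k ω => fl (lev S (ρ p) k) (g k ω) with hzb
  have bb : Bdd zb := hg _
  have e1 : restL (E p) hp (io Bc) = io (S := S.rest (E p)) Bc := restL_io (E p) hp hB
  have e2 : restL (E p) hp (io zb) = io (S := S.rest (E p)) zb := restL_io (E p) hp bb
  have b1 : Bdd (S := S.rest (E p)) zb := rest_VB (E p) bb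
  have b2 : Bdd (S := S.rest (E p)) Bc := rest_VB (E p) hB
  rw [e1, e2, h_io b1 b2] at h2
  set R : ℕ → ℝ := (S.rest (E p)).rt (fun k => Setoid.ker (zb k)) (fun k => Setoid.ker (Bc k)) with hR
  have hUR : UB R := UB_rt (b1.toInf) _
  have h3 : ∀ k, S.pr (E p) k * R k ≤ (c * ρ p - η / 4) * S.pr (E p) k := by
    intro k
    have hn := (S.F k).pos
    have c1 := srp_event_le (S.F k).μ (S.F k).nn (zb k) (fun ω' => (Quotient.mk (S.F k).Z ω', Bc k ω'))
      (E p k) ((c * ρ p - η / 4) * (S.F k).n) (fun ω _ hω => hω)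
    rw [(S.F k).CH_res] at c1
    have c2 : CH ((S.F k).rest (E p k)).μ (zb k) (fun ω' => (Quotient.mk (S.F k).Z ω', Bc k ω')) =
        R k * (S.F k).n := by
      have c3 : R k = ((S.F k).rest (E p k)).e (Setoid.ker (zb k))
          (Setoid.ker (Bc k) ⊓ (S.F k).Z) / (S.F k).n := rfl
      rw [c3, div_mul_cancel₀ _ hn.ne']
      symm
      apply ((S.F k).rest (E p k)).e_congr
      · intro ω ω' _ _
        exact Iff.rfl
      · intro ω ω' _ _
        rw [Prod.mk.injEq]
        constructor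
        · rintro ⟨u1, u2⟩
          exact ⟨Quotient.sound u2, u1⟩
        · rintro ⟨u1, u2⟩
          exact ⟨u2, Quotient.exact u1⟩
    replace c1 := (le_of_eq (congrArg (fun t => (S.F k).pb (E p k) * t) c2).symm).trans c1
    beta_reduce at c1
    have c4 : (S.F k).pb (E p k) = S.pr (E p) k := rfl
    have c5 : mass (res (S.F k).μ (E p k)) = S.pr (E p) k := rfl
    rw [c4, c5] at c1
    have c6 : (S.pr (E p) k * R k) * (S.F k).n ≤ ((c * ρ p - η / 4) * S.pr (E p) k) * (S.F k).n := by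
      linarith
    exact le_of_mul_le_mul_right c6 hn
  have t1 : Tendsto (fun k => (c * ρ p - η / 4) * S.pr (E p) k) UF (𝓝 ((c * ρ p - η / 4) * ul (S.pr (E p)))) :=
    (ul_tendsto (UB_pr (E p))).const_mul _
  have t2 : Tendsto (fun k => S.pr (E p) k * R k) UF (𝓝 (ul (S.pr (E p)) * ul R)) :=
    (ul_tendsto (UB_pr (E p))).mul (ul_tendsto hUR)
  have h4 := le_of_tendsto_of_tendsto t2 t1 (Eventually.of_forall h3)
  have h5 : ul (S.pr (E p)) * (c * ρ p) ≤ ul (S.pr (E p)) * ul R :=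
    mul_le_mul_of_nonneg_left h2 hp.le
  have h6 : 0 < η / 4 * ul (S.pr (E p)) := by positivity
  nlinarith

end

end Pool.Agent.Helper61.EC
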