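import Pool.Agent.Helper61.EC.Wec

/-! Finite families of rounded variables. -/

namespace Pool.Agent.Helper61.EC

open Finset Filter Topology Pool.Agent.Helper69.RK Pool.Agent.Helper31.EC Pool.Agent.Helper92.W Pool.Agent.Helper46.WF

noncomputable section

open Sp

/-- finite families of random variables -/
theorem pi_io (S : Sp) : ∀ (J : ℕ) (X : Fin J → ∀ k, (S.F k).Ω → ℝ), (∀ i, Bdd (X i)) →
    Bdd (fun k ω (i : Fin J) => X i k ω) ∧
      io (fun k ω (i : Fin J) => X i k ω) = (univ : Finset (Fin J)).sup fun i => io (X i) := by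
  intro J
  induction J with
  | zero =>
    intro X _
    have hb : Bdd (fun k (ω : (S.F k).Ω) (i : Fin 0) => X i k ω) := by
      apply Bdd_of_card _ (fun _ => {fun i => i.elim0}) 0
      · exact Eventually.of_forall fun k ω _ => Finset.mem_singleton.mpr (Subsingleton.elim _ _)
      · exact Eventually.of_forall fun k => by simp
    refine ⟨hb, le_antisymm ?_ ?_⟩
    · have h1 : io (fun k (ω : (S.F k).Ω) (i : Fin 0) => X i k ω) ≤ ⊥ := by
        have h2 : io (fun k (ω : (S.F k).Ω) (i : Fin 0) => X i k ω) ≤ (⊥ : S.L) := by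
          rw [io_eq hb]
          rw [← cl_bot, cl_le]
          refine squeeze_zero' (Eventually.of_forall fun k => rt_nonneg _ _ k)
            (Eventually.of_forall fun k => ?_) tendsto_const_nhds
          apply le_of_eq
          unfold rt
          rw [(S.F k).e_zero, zero_div]
          intro ω ω' _ _ _
          exact Subsingleton.elim _ _
        exact h2
      exact h1.trans bot_le
    · simp
  | succ J ih =>
    intro X hX
    obtain ⟨b1, e1⟩ := ih (fun i => X i.succ) fun i => hX i.succ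
    have bp := (hX 0).pair b1
    have ep := io_pair (hX 0) b1
    have fw : ∀ k (ω ω' : (S.F k).Ω), (X 0 k ω, fun i : Fin J => X i.succ k ω) =
        (X 0 k ω', fun i : Fin J => X i.succ k ω') → (fun i : Fin (J + 1) => X i k ω) = fun i => X i k ω' := by
      intro k ω ω' hh
      rw [Prod.mk.injEq] at hh
      funext i
      refine Fin.cases hh.1 (fun j => congrFun hh.2 j) i
    have bb : Bdd (fun k ω (i : Fin (J + 1)) => X i k ω) :=
      bp.of_fun (Eventually.of_forall fun k ω ω' _ _ _ hh => fw k ω ω' hh)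
    refine ⟨bb, le_antisymm ?_ ?_⟩
    · refine (io_le_of_fun bp (Eventually.of_forall fun k ω ω' _ _ _ hh => fw k ω ω' hh)).trans ?_
      rw [ep, e1]
      refine sup_le (Finset.le_sup (f := fun i => io (X i)) (Finset.mem_univ (0 : Fin (J + 1)))) ?_
      apply Finset.sup_le
      intro i _
      exact Finset.le_sup (f := fun i => io (X i)) (Finset.mem_univ i.succ)
    · apply Finset.sup_le
      intro i _
      exact io_le_of_fun bb (Eventually.of_forall fun k ω ω' _ _ _ hh => congrFun hh i)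

theorem io_rd1 {S : Sp} (y : TR S) (hy : ∀ k ω, |TR.ev y k ω| ≤ 1) :
    Bdd (fun k ω => rd (lev S 1 k) (TR.ev y k ω)) ∧
      io (fun k ω => rd (lev S 1 k) (TR.ev y k ω)) = QS.dg (QS.mk y) 1 := by
  have b0 := bdd_fl S (TR.ev y) 1 hy 1
  have i0 := io_fl S y 1 hy zero_le_one le_rfl
  have f1 : ∀ k, ∀ ω ω', fl (lev S 1 k) (TR.ev y k ω) = fl (lev S 1 k) (TR.ev y k ω') →
      rd (lev S 1 k) (TR.ev y k ω) = rd (lev S 1 k) (TR.ev y k ω') := by
    intro k ω ω' hh
    unfold rd
    rw [hh]
  have bX : Bdd (fun k ω => rd (lev S 1 k) (TR.ev y k ω)) :=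
    b0.of_fun (Eventually.of_forall fun k ω ω' _ _ _ hh => f1 k ω ω' hh)
  refine ⟨bX, ?_⟩
  rw [← i0]
  apply le_antisymm
  · exact io_le_of_fun b0 (Eventually.of_forall fun k ω ω' _ _ _ hh => f1 k ω ω' hh)
  · refine io_le_of_fun bX (Eventually.of_forall fun k ω ω' _ _ _ hh => ?_)
    rw [← fl_rd (lev S 1 k) (TR.ev y k ω), hh, fl_rd]

theorem io_rdn {S : Sp} {J : ℕ} (y : Fin J → TR S) (hy : ∀ i k ω, |TR.ev (y i) k ω| ≤ 1) :
    Bdd (fun k ω (i : Fin J) => rd (lev S 1 k) (TR.ev (y i) k ω)) ∧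
      io (fun k ω (i : Fin J) => rd (lev S 1 k) (TR.ev (y i) k ω)) = QS.vd (fun i => QS.mk (y i)) 1 := by
  have h := pi_io S J (fun i k ω => rd (lev S 1 k) (TR.ev (y i) k ω)) fun i => (io_rd1 (y i) (hy i)).1
  refine ⟨h.1, h.2.trans ?_⟩
  unfold QS.vd
  congr 1
  funext i
  exact (io_rd1 (y i) (hy i)).2

end

end Pool.Agent.Helper61.EC
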