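import Pool.Agent.Helper69.RN.St
import Pool.Agent.Helper61.RN.Lo
import Pool.Agent.Helper61.RN.Pi

/-! Bridge from the finite RING NOISE theorem to the exact calculus. -/

namespace Pool.Agent.Helper61.EC

open Finset Filter Topology Pool.Agent.Helper69.RK Pool.Agent.Helper31.EC Pool.Agent.Helper92.W Pool.Agent.Helper46.WF
  Pool.Agent.Helper69.RN

noncomputable section

open Sp

/-- eventual form of a lower bound for conditional rates -/
theorem ev_ge (S : Sp) {α β : ℕ → Type} {X : ∀ k, (S.F k).Ω → α k} {Y : ∀ k, (S.F k).Ω → β k}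
    (hX : Bdd X) (hY : Bdd Y) {t η : ℝ} (h0 : t ≤ h (io X) (io Y)) (hη : 0 < η) :
    ∀ᶠ k in UF, (t - η) * (S.F k).n ≤ CH (S.F k).μ (X k) (fun ω => (Quotient.mk (S.F k).Z ω, Y k ω)) := by
  rw [h_io hX hY] at h0
  have u2 : UB (S.rt (fun k => Setoid.ker (X k)) (fun k => Setoid.ker (Y k))) := UB_rt hX.toInf _
  have t1 := ul_tendsto u2
  filter_upwards [t1.eventually (lt_mem_nhds (show t - η < _ by linarith))] with k hk
  rw [CH_rt]
  exact mul_le_mul_of_nonneg_right hk.le (S.F k).pos.le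

/-- eventual form of an upper bound for conditional rates -/
theorem ev_le (S : Sp) {α β : ℕ → Type} {X : ∀ k, (S.F k).Ω → α k} {Y : ∀ k, (S.F k).Ω → β k}
    (hX : Bdd X) (hY : Bdd Y) {t η : ℝ} (h0 : h (io X) (io Y) ≤ t) (hη : 0 < η) :
    ∀ᶠ k in UF, CH (S.F k).μ (X k) (fun ω => (Quotient.mk (S.F k).Z ω, Y k ω)) ≤ (t + η) * (S.F k).n := by
  rw [h_io hX hY] at h0
  have u2 : UB (S.rt (fun k => Setoid.ker (X k)) (fun k => Setoid.ker (Y k))) := UB_rt hX.toInf _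
  have t1 := ul_tendsto u2
  filter_upwards [t1.eventually (gt_mem_nhds (show _ < t + η by linarith))] with k hk
  rw [CH_rt]
  exact mul_le_mul_of_nonneg_right hk.le (S.F k).pos.le

/-- powers of a scalar -/
theorem dg_scalar_pow {S : Sp} {u v : QS S} (hu : ∀ r ≤ 1, QS.dg u r = ⊥) (hv : ∀ r ≤ 1, QS.dg v r = ⊥)
    (huv : v * u = 1) (f : QS S) {r : ℝ} (hr : r ≤ 1) (m : ℕ) : QS.dg (u ^ m * f) r = QS.dg f r := by
  induction m with
  | zero => rw [pow_zero, one_mul]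
  | succ m ih => rw [pow_succ', mul_assoc, dg_scalar hu hv huv _ hr, ih]

theorem dg_const_add {S : Sp} {c : QS S} {r : ℝ} (hr : r ≤ 1) (hc : QS.dg c r = ⊥) (f : QS S) :
    QS.dg (c + f) r = QS.dg f r := by
  apply le_antisymm
  · refine (QS.dg_add_le _ _ hr).trans ?_
    rw [hc, bot_sup_eq]
  · have e2 : f = (c + f) - c := by ring
    have e3 := QS.dg_sub_le (c + f) c hr
    rw [← e2, hc, sup_bot_eq] at e3
    exact e3

/-- the finite theorem for normalised families of random variables -/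
theorem RNN {j n0 : ℕ} {η γ ε : ℝ} (hη : 0 < η) (hγ : 0 < γ) (hγ1 : γ ≤ 1)
    (hN : ∀ n : ℕ, n0 ≤ n →
      ∀ (Ω φ : Type) [Fintype Ω] (μ : Ω → ℝ) (F : Ω → φ) (z : Ω → ℝ) (κ : Fin (j + 1) → Ω → ℝ) (y : φ → ℝ),
        RBlk n j η γ μ F z κ y → (1 - ε) * n ≤ CH μ (fun ω => fl n (z ω)) F)
    (S : Sp) {α : ℕ → Type} (Bc : ∀ k, (S.F k).Ω → α k) (hB : Bdd Bc)
    (g : ∀ k, (S.F k).Ω → ℝ) (κ : ∀ k, Fin (j + 1) → (S.F k).Ω → ℝ) (y : ∀ k, α k → ℝ)
    (hg0 : ∀ k ω, 0 ≤ g k ω ∧ g k ω < 1) (hκ1 : ∀ k i ω, |κ k i ω| ≤ 1) (hy1 : ∀ k ω, |y k (Bc k ω)| ≤ 1)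
    (hyu : ∀ δ : ℝ, 0 < δ → Typ (fun k ω => S.dl δ k ≤ |y k (Bc k ω)|))
    (hg : Bdd (fun k ω => fl (lev S 1 k) (g k ω)))
    (hκB : ∀ i, Bdd (fun k ω => κ k i ω)) (hκp : Bdd (fun k ω i => κ k i ω))
    (hκF : ∀ i r, Bdd (fun k ω => fl (lev S r k) (κ k i ω)))
    (h3B : Bdd (fun k ω => fl (lev S 1 k) (g k ω + (∏ i, κ k i ω) * y k (Bc k ω))))
    (ind : h (io (fun k ω => fl (lev S 1 k) (g k ω))) (io Bc) + ∑ i, h (io (fun k ω => κ k i ω)) (io Bc) ≤
      h (io (fun k ω => fl (lev S 1 k) (g k ω)) ⊔ io (fun k ω i => κ k i ω)) (io Bc))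
    (abs : h (io (fun k ω => fl (lev S 1 k) (g k ω + (∏ i, κ k i ω) * y k (Bc k ω)))) (io Bc) ≤
      h (io (fun k ω => fl (lev S 1 k) (g k ω))) (io Bc))
    (br : ∀ (i : Fin (j + 1)) (E : ∀ k, (S.F k).Ω → Prop) (hE : 0 < ul (S.pr E)) (r : ℝ), 0 ≤ r → r ≤ 1 →
      γ * r ≤ h (restL E hE (io (fun k ω => fl (lev S r k) (κ k i ω)))) (restL E hE (io Bc))) :
    1 - ε ≤ h (io (fun k ω => fl (lev S 1 k) (g k ω))) (io Bc) := by
  classical
  set η' : ℝ := η / (8 * (j + 4)) with hη'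
  have hη0 : 0 < η' := by positivity
  have e1 : ∀ i, ∀ᶠ k in UF, Pw (S.F k).μ (Low S Bc (fun k => κ k i) γ η k) ≤ η := fun i =>
    lo_of S Bc hB (fun k => κ k i) (hκF i) γ η hγ.le hγ1 hη (br i)
  have e2 := ev_le S hg hB (le_refl (h (io (fun k ω => fl (lev S 1 k) (g k ω))) (io Bc))) hη0
  have e3 : ∀ i, ∀ᶠ k in UF, CH (S.F k).μ (κ k i) (fun ω => (Quotient.mk (S.F k).Z ω, Bc k ω)) ≤
      (h (io (fun k ω => κ k i ω)) (io Bc) + η') * (S.F k).n := fun i =>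
    ev_le S (hκB i) hB (le_refl (h (io (fun k ω => κ k i ω)) (io Bc))) hη0
  have e4 := ev_ge S (hg.pair hκp) hB (le_refl (h (io (fun k ω => (fl (lev S 1 k) (g k ω), fun i => κ k i ω))) (io Bc))) hη0
  have e5 := ev_le S h3B hB abs hη0
  have e6 := ev_ge S hg hB (le_refl (h (io (fun k ω => fl (lev S 1 k) (g k ω))) (io Bc))) hη0
  have e7 := S.lim.eventually_ge_atTop (max 2 (n0 + 1))
  have e8 : ∀ᶠ k in UF, mass (res (S.F k).μ (fun ω => ¬ S.dl (η / 2) k ≤ |y k (Bc k ω)|)) < η :=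
    (hyu (η / 2) (half_pos hη)).eventually (gt_mem_nhds hη)
  have key : ∀ᶠ k in UF, (1 - ε) * (lev S 1 k : ℝ) ≤
      CH (S.F k).μ (fun ω => fl (lev S 1 k) (g k ω)) (fun ω => (Quotient.mk (S.F k).Z ω, Bc k ω)) := by
    filter_upwards [eventually_all.mpr e1, e2, eventually_all.mpr e3, e4, e5, e6, e7, e8] with k k1 k2 k3 k4 k5 k6 k7 k8
    have hn := (S.F k).pos
    set N : ℕ := lev S 1 k with hN'
    have hNle : (N : ℝ) ≤ (S.F k).n := by
      have := lev_le S zero_le_one k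
      rwa [one_mul] at this
    have hNlt : (S.F k).n < N + 1 := by
      have := lt_lev S 1 k
      rwa [one_mul] at this
    have hn2 : 2 ≤ (S.F k).n := (le_max_left _ _).trans k7
    have hnn0 : (n0 : ℝ) + 1 ≤ (S.F k).n := (le_max_right _ _).trans k7
    have hNn0 : n0 ≤ N := by
      have : (n0 : ℝ) < N + 1 := by linarith
      have h3 : n0 < N + 1 := by exact_mod_cast this
      omega
    have hηN : η / 2 * (S.F k).n ≤ η * N := by
      have h3 : (S.F k).n / 2 ≤ N := by linarith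
      have h4 := mul_le_mul_of_nonneg_left h3 hη.le
      linarith
    have hsm : ((j : ℝ) + 4) * η' * (S.F k).n ≤ η / 8 * (S.F k).n := by
      apply mul_le_mul_of_nonneg_right _ hn.le
      rw [hη']
      apply le_of_eq
      field_simp
    have hηn : 0 < η * (S.F k).n := mul_pos hη hn
    have hη'n : 0 < η' * (S.F k).n := mul_pos hη0 hn
    have hjn : 0 ≤ (j : ℝ) * (η' * (S.F k).n) := by positivity
    apply hN N hNn0 _ _ (S.F k).μ (fun ω => (Quotient.mk (S.F k).Z ω, Bc k ω)) (g k) (κ k) (fun p => y k p.2)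
    refine ⟨(S.F k).nn, (S.F k).ms, hg0 k, hκ1 k, fun ω _ => hy1 k ω, ?_, ?_, ?_, k1⟩
    · refine le_trans ?_ k8.le
      rw [Pw_eq]
      apply (S.F k).pb_mono
      intro ω _ hω
      rw [not_le]
      refine lt_of_lt_of_le hω ?_
      unfold Sp.dl
      apply Real.rpow_le_rpow_of_exponent_le (by norm_num)
      linarith
    · have s1 : ∑ i, CH (S.F k).μ (κ k i) (fun ω => (Quotient.mk (S.F k).Z ω, Bc k ω)) ≤
          ∑ i, (h (io (fun k ω => κ k i ω)) (io Bc) + η') * (S.F k).n := Finset.sum_le_sum fun i _ => k3 i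
      have s2 : ∑ i, (h (io (fun k ω => κ k i ω)) (io Bc) + η') * (S.F k).n =
          (∑ i, h (io (fun k ω => κ k i ω)) (io Bc)) * (S.F k).n + ((j : ℝ) + 1) * (η' * (S.F k).n) := by
        rw [← Finset.sum_mul, Finset.sum_add_distrib]
        simp
        ring
      rw [s2] at s1
      rw [io_pair hg hκp] at k4
      have s3 := mul_le_mul_of_nonneg_right ind hn.le
      have s4 : ((j : ℝ) + 4) * η' * (S.F k).n = (j : ℝ) * (η' * (S.F k).n) + 4 * (η' * (S.F k).n) := by ring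
      linarith
    · have s4 : ((j : ℝ) + 4) * η' * (S.F k).n = (j : ℝ) * (η' * (S.F k).n) + 4 * (η' * (S.F k).n) := by ring
      linarith
  rw [h_io hg hB]
  have u2 : UB (S.rt (fun k => Setoid.ker (fun ω => fl (lev S 1 k) (g k ω))) (fun k => Setoid.ker (Bc k))) :=
    UB_rt hg.toInf _
  have t1 := ul_tendsto u2
  have t2 : Tendsto (fun k => (1 - ε) - |1 - ε| / (S.F k).n) UF (𝓝 ((1 - ε) - 0)) :=
    tendsto_const_nhds.sub (S.div_n_tendsto _)
  rw [sub_zero] at t2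
  refine le_of_tendsto_of_tendsto t2 t1 ?_
  filter_upwards [key] with k hk
  have e9 := CH_rt S (fun k ω => fl (lev S 1 k) (g k ω)) Bc k
  rw [e9] at hk
  have hn := (S.F k).pos
  have hNle : (lev S 1 k : ℝ) ≤ (S.F k).n := by
    have := lev_le S zero_le_one k
    rwa [one_mul] at this
  have hNlt : (S.F k).n < lev S 1 k + 1 := by
    have := lt_lev S 1 k
    rwa [one_mul] at this
  have h5 : (1 - ε) * (S.F k).n - |1 - ε| ≤ (1 - ε) * (lev S 1 k : ℝ) := by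
    have h6 : (1 - ε) * ((S.F k).n - lev S 1 k) ≤ |1 - ε| * 1 := by
      calc (1 - ε) * ((S.F k).n - lev S 1 k) ≤ |1 - ε| * ((S.F k).n - lev S 1 k) :=
            mul_le_mul_of_nonneg_right (le_abs_self _) (by linarith)
        _ ≤ |1 - ε| * 1 := mul_le_mul_of_nonneg_left (by linarith) (abs_nonneg _)
    linarith
  have h7 := h5.trans hk
  have h8 : ((1 - ε) - |1 - ε| / (S.F k).n) * (S.F k).n = (1 - ε) * (S.F k).n - |1 - ε| := by
    field_simp
  rw [← h8] at h7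
  exact le_of_mul_le_mul_right h7 hn

theorem st_BG : ST_BG := by
  intro hR γ ε hγ hγ1 hε
  obtain ⟨j, η, hη, n0, hN⟩ := hR γ ε hγ hγ1 hε
  refine ⟨j, ?_⟩
  intro S A z z' y κ hyA hyu hz' i1 i2 i3 hbr
  classical
  obtain ⟨α, Bc, hB, hBv⟩ := exists_io A
  obtain ⟨u, v, hu, hv, huv, hu4, g, hg4, hgf⟩ :=
    norm_exists (Sum.elim (fun _ : Unit => z) (Sum.elim κ (fun _ : Unit => y)))
  have hκ4 : ∀ (i : Fin (j + 1)) k ω, |TR.ev (g (Sum.inr (Sum.inl i))) k ω| ≤ 1 := fun i k ω => (hg4 _ k ω).trans (by norm_num)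
  have hy4 : ∀ k ω, |TR.ev (g (Sum.inr (Sum.inr ()))) k ω| ≤ 1 := fun k ω => (hg4 _ k ω).trans (by norm_num)
  have hz4 : ∀ k ω, |TR.ev (g (Sum.inl ())) k ω| ≤ 1 / 4 := fun k ω => hg4 _ k ω
  have mκ : ∀ i, QS.mk (g (Sum.inr (Sum.inl i))) = QS.mk u * κ i := fun i => hgf (Sum.inr (Sum.inl i))
  have my : QS.mk (g (Sum.inr (Sum.inr ()))) = QS.mk u * y := hgf (Sum.inr (Sum.inr ()))
  have mz : QS.mk (g (Sum.inl ())) = QS.mk u * z := hgf (Sum.inl ())
  set hf : TR S := cst S (fun _ => 1 / 2) ⟨fun _ => 1 / 2, S.Sub_const (by norm_num), Eventually.of_forall fun k => by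
    rw [abs_of_nonneg (by norm_num)]⟩ with hhf
  have hfd : ∀ r ≤ 1, QS.dg (QS.mk hf) r = ⊥ := fun r hr => cst_dg _ _ hr
  set zT : TR S := hf + u ^ (j + 1) * g (Sum.inl ()) with hzT
  have zTe : ∀ k ω, TR.ev zT k ω = 1 / 2 + (TR.ev u k ω) ^ (j + 1) * TR.ev (g (Sum.inl ())) k ω := by
    intro k ω
    have e1 : TR.ev zT k ω = TR.ev hf k ω + TR.ev (u ^ (j + 1)) k ω * TR.ev (g (Sum.inl ())) k ω := rfl
    have e2 : TR.ev (u ^ (j + 1)) k ω = (TR.ev u k ω) ^ (j + 1) := map_pow (TR.evh k ω) u (j + 1)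
    rw [e1, e2]
    rfl
  have hupow : ∀ k ω, |(TR.ev u k ω) ^ (j + 1)| ≤ 1 := by
    intro k ω
    rw [abs_pow]
    exact pow_le_one₀ (abs_nonneg _) ((hu4 k ω).trans (by norm_num))
  have zTb : ∀ k ω, |(TR.ev u k ω) ^ (j + 1) * TR.ev (g (Sum.inl ())) k ω| ≤ 1 / 4 := by
    intro k ω
    rw [abs_mul]
    calc |(TR.ev u k ω) ^ (j + 1)| * |TR.ev (g (Sum.inl ())) k ω| ≤ 1 * (1 / 4) :=
          mul_le_mul (hupow k ω) (hz4 k ω) (abs_nonneg _) (by norm_num)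
      _ = 1 / 4 := by norm_num
  have zT0 : ∀ k ω, 0 ≤ TR.ev zT k ω ∧ TR.ev zT k ω < 1 := by
    intro k ω
    rw [zTe]
    have := abs_le.mp (zTb k ω)
    constructor <;> linarith [this.1, this.2]
  have zT1 : ∀ k ω, |TR.ev zT k ω| ≤ 1 := by
    intro k ω
    rw [abs_of_nonneg (zT0 k ω).1]
    exact (zT0 k ω).2.le
  set κT : Fin (j + 1) → TR S := fun i => rdT (g (Sum.inr (Sum.inl i))) (hκ4 i) with hκT
  set yT : TR S := rdT (g (Sum.inr (Sum.inr ()))) hy4 with hyT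
  set K : ∀ k, Fin (j + 1) → (S.F k).Ω → ℝ := fun k i ω => TR.ev (κT i) k ω with hK
  have hK1 : ∀ k i ω, |K k i ω| ≤ 1 := fun k i ω => rd_le_one _ (hκ4 i k ω)
  have hyT1 : ∀ k ω, |TR.ev yT k ω| ≤ 1 := fun k ω => rd_le_one _ (hy4 k ω)
  have mκT : ∀ i, QS.mk (κT i) = QS.mk u * κ i := fun i => (mk_rdT _ _).trans (mκ i)
  have myT : QS.mk yT = QS.mk u * y := (mk_rdT _ _).trans my
  have mzT : QS.mk zT = QS.mk hf + (QS.mk u) ^ (j + 2) * z := by
    rw [hzT, map_add, map_mul, map_pow, mz]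
    ring
  have dz : ∀ r ≤ 1, QS.dg (QS.mk zT) r = QS.dg z r := by
    intro r hr
    rw [mzT, dg_const_add hr (hfd r hr), dg_scalar_pow hu hv huv _ hr]
  set f3 : TR S := zT + (∏ i, κT i) * yT with hf3
  have evprod : ∀ k ω, TR.ev (∏ i, κT i) k ω = ∏ i, K k i ω := by
    intro k ω
    exact map_prod (TR.evh k ω) κT univ
  have f3e : ∀ k ω, TR.ev f3 k ω = TR.ev zT k ω + (∏ i, K k i ω) * TR.ev yT k ω := by
    intro k ω
    rw [← evprod]
    rfl
  have m3 : QS.mk f3 = QS.mk hf + (QS.mk u) ^ (j + 2) * z' := by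
    rw [hf3, map_add, mzT, map_mul, map_prod, myT, hz']
    have e1 : ∏ i, QS.mk (κT i) = (QS.mk u) ^ (j + 1) * ∏ i, κ i := by
      rw [Finset.prod_congr rfl fun i _ => mκT i, Finset.prod_mul_distrib, Finset.prod_const, Finset.card_univ,
        Fintype.card_fin]
    rw [e1]
    ring
  have prb : ∀ k ω, |(∏ i, K k i ω) * TR.ev yT k ω| ≤ 1 := by
    intro k ω
    rw [abs_mul, Finset.abs_prod]
    apply mul_le_one₀ _ (abs_nonneg _) (hyT1 k ω)
    exact Finset.prod_le_one (fun i _ => abs_nonneg _) fun i _ => hK1 k i ω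
  have f3b : ∀ k ω, |TR.ev f3 k ω| ≤ 2 := by
    intro k ω
    rw [f3e]
    refine (abs_add_le _ _).trans ?_
    linarith [zT1 k ω, prb k ω]
  have d3 : QS.dg (QS.mk f3) 1 = QS.dg z' 1 := by
    rw [m3, dg_const_add le_rfl (hfd 1 le_rfl), dg_scalar_pow hu hv huv _ le_rfl]
  -- informations
  have iok : ∀ i, Bdd (fun k ω => K k i ω) ∧ io (fun k ω => K k i ω) = QS.dg (κ i) 1 := by
    intro i
    obtain ⟨b1, e1⟩ := io_rd1 (g (Sum.inr (Sum.inl i))) (hκ4 i)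
    refine ⟨b1, e1.trans ?_⟩
    rw [mκ i]
    exact dg_scalar hu hv huv _ le_rfl
  obtain ⟨bK, ioK⟩ := io_rdn (fun i => g (Sum.inr (Sum.inl i))) hκ4
  have ioK' : io (fun k ω i => K k i ω) = QS.vd κ 1 := by
    refine ioK.trans ?_
    unfold QS.vd
    congr 1
    funext i
    beta_reduce
    rw [mκ i]
    exact dg_scalar hu hv huv _ le_rfl
  have ikr : ∀ i r, 0 ≤ r → r ≤ 1 → io (fun k ω => fl (lev S r k) (K k i ω)) = QS.dg (κ i) r := by
    intro i r h0 h1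
    refine (io_fl S (κT i) 1 (fun k ω => hK1 k i ω) h0 h1).trans ?_
    rw [mκT]
    exact dg_scalar hu hv huv _ h1
  have iz : io (fun k ω => fl (lev S 1 k) (TR.ev zT k ω)) = QS.dg z 1 :=
    (io_fl S zT 1 zT1 zero_le_one le_rfl).trans (dz 1 le_rfl)
  -- the base
  have by0 := bdd_fl S (TR.ev (g (Sum.inr (Sum.inr ())))) 1 hy4 1
  have iy0 : io (fun k ω => fl (lev S 1 k) (TR.ev (g (Sum.inr (Sum.inr ()))) k ω)) = QS.dg y 1 := by
    refine (io_fl S (g (Sum.inr (Sum.inr ()))) 1 hy4 zero_le_one le_rfl).trans ?_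
    rw [my]
    exact dg_scalar hu hv huv _ le_rfl
  set B2 : ∀ k, (S.F k).Ω → α k × ℤ := fun k ω =>
    (Bc k ω, fl (lev S 1 k) (TR.ev (g (Sum.inr (Sum.inr ()))) k ω)) with hB2
  have bB2 : Bdd B2 := hB.pair by0
  have ioB2 : io B2 = A := by
    rw [hB2, io_pair hB by0, iy0, hBv]
    exact sup_eq_left.mpr hyA
  set yf : ∀ k, α k × ℤ → ℝ := fun k p => ((p.2 : ℤ) : ℝ) / 2 ^ (lev S 1 k) with hyf
  have hyf1 : ∀ k ω, yf k (B2 k ω) = TR.ev yT k ω := fun k ω => rfl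
  have f3' : (fun k ω => fl (lev S 1 k) (TR.ev zT k ω + (∏ i, K k i ω) * yf k (B2 k ω))) =
      fun k ω => fl (lev S 1 k) (TR.ev f3 k ω) := by
    funext k ω
    rw [hyf1, f3e]
  have b3 := bdd_fl S (TR.ev f3) 2 f3b 1
  have i3' : io (fun k ω => fl (lev S 1 k) (TR.ev f3 k ω)) = QS.dg z' 1 :=
    (io_fl S f3 2 f3b zero_le_one le_rfl).trans d3
  have hind : h (QS.dg z 1 ⊔ QS.vd κ 1) A = h (QS.dg z 1) A + ∑ i, h (QS.dg (κ i) 1) A := by
    rw [h_chain, ← i3]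
    congr 1
    have := I_zero_iff_h'.mp i1
    exact this
  have habs : h (QS.dg z' 1) A ≤ h (QS.dg z 1) A := by
    have e1 := I_zero_iff_h.mp i2
    rw [← e1]
    have e2 : QS.dg z' 1 ≤ QS.dg z 1 ⊔ (QS.vd κ 1 ⊔ A) := by
      rw [hz']
      refine (QS.dg_add_le _ _ le_rfl).trans (sup_le le_sup_left ?_)
      refine le_trans ?_ le_sup_right
      refine (QS.dg_mul_le _ _ le_rfl).trans (sup_le ?_ (hyA.trans le_sup_right))
      refine le_trans ?_ le_sup_left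
      have e3 : (∏ i, κ i) ∈ QS.Kn S 1 le_rfl (QS.vd κ 1) := by
        apply Subring.prod_mem
        intro i _
        exact QS.dg_le_vd κ 1 i
      exact e3
    calc h (QS.dg z' 1) (QS.vd κ 1 ⊔ A) ≤ h (QS.dg z 1 ⊔ (QS.vd κ 1 ⊔ A)) (QS.vd κ 1 ⊔ A) := h_mono e2
      _ = h (QS.dg z 1) (QS.vd κ 1 ⊔ A) := h_sup_right_of_le le_rfl
      _ ≤ h (QS.dg z 1) A := h_anti le_sup_right
  have fin := RNN (ε := ε) hη hγ hγ1 hN S B2 bB2 (TR.ev zT) K yf zT0 hK1 (fun k ω => by rw [hyf1]; exact hyT1 k ω)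
    (fun δ hδ => by
      have h1 : IsUnit (QS.mk yT) := by
        rw [myT]
        exact (IsUnit.of_mul_eq_one (QS.mk v) (by rw [mul_comm]; exact huv)).mul hyu
      exact (QS.isUnit_mk.mp h1).levels hδ)
    (bdd_fl S _ 1 zT1 1) (fun i => (iok i).1) bK (fun i r => bdd_fl S (TR.ev (κT i)) 1 (fun k ω => hK1 k i ω) r)
    (by rw [f3']; exact b3)
    (by
      rw [iz, ioK', ioB2, hind]
      apply le_of_eq
      congr 1
      apply Finset.sum_congr rfl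
      intro i _
      rw [(iok i).2])
    (by rw [f3', i3', iz, ioB2]; exact habs)
    (by
      intro i E hE r h0 h1
      rw [ikr i r h0 h1, ioB2]
      exact hbr i E hE r h0 h1)
  rwa [iz, ioB2] at fin

end

end Pool.Agent.Helper61.EC
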